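import Mathlib

/-!
# MP_2619d0_ag: the number of birational parametrizations of a very general cubic hypersurface
(statements of the parts)

For a very general cubic hypersurface `X` of dimension `n`, defined over `K = ℚ(coefficients)`, we
consider the birational maps from projective `n`-space to `X` given by forms of degree `D` whose
coefficients are algebraic over `K`, up to constants and linear changes of the parameters. If their
number `m` is finite, then it is even for even `n`, and divisible by three if `n + 1` is not.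
-/

set_option autoImplicit false

namespace Pool.Agent.Helper19.CP

open MvPolynomial

/-- all coefficients of `p` are in the subfield `K` -/
def Over {m : ℕ} (K : Subfield ℂ) (p : MvPolynomial (Fin m) ℂ) : Prop := ∀ α, p.coeff α ∈ K

/-- the algebraic closure of `K` in `ℂ` -/
noncomputable def Alg (K : Subfield ℂ) : Subfield ℂ := (algebraicClosure K ℂ).toSubfield

/-- the polynomial `p (φ y)` -/
noncomputable def subst {m : ℕ} (φ : Matrix (Fin m) (Fin m) ℂ) (p : MvPolynomial (Fin m) ℂ) :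
    MvPolynomial (Fin m) ℂ := aeval (fun j => ∑ l, C (φ j l) * X l) p

/-- `n + 2` polynomials in `n + 1` variables -/
abbrev Tuple (n : ℕ) : Type := Fin (n + 2) → MvPolynomial (Fin (n + 1)) ℂ

/-- the field of rational functions in `m` variables -/
abbrev Rat (m : ℕ) : Type := FractionRing (MvPolynomial (Fin m) ℂ)

/-- the field generated over `ℂ` by all ratios `G i / G j` -/
noncomputable def ratios {n : ℕ} (G : Tuple n) : IntermediateField ℂ (Rat (n + 1)) :=
  IntermediateField.adjoin ℂ {z | ∃ i j, z = algebraMap _ (Rat (n + 1)) (G i) /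
    algebraMap _ (Rat (n + 1)) (G j)}

/-- the forms `G i` of degree `D` in `n + 1` variables give a birational map from projective
`n`-space to the hypersurface `F = 0`: `F` vanishes at `G`, every form vanishing at `G` is
divisible by `F`, and the ratios of the parameters are rational functions of the ratios `G i / G j` -/
structure IsParam {n : ℕ} (F : MvPolynomial (Fin (n + 2)) ℂ) (D : ℕ) (G : Tuple n) : Prop where
  hom : ∀ i, (G i).IsHomogeneous D
  zero : aeval G F = 0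
  dom : ∀ (e : ℕ) (H : MvPolynomial (Fin (n + 2)) ℂ), H.IsHomogeneous e → aeval G H = 0 → F ∣ H
  bir : ∀ i j : Fin (n + 1), algebraMap (MvPolynomial (Fin (n + 1)) ℂ) (Rat (n + 1)) (X i) /
    algebraMap (MvPolynomial (Fin (n + 1)) ℂ) (Rat (n + 1)) (X j) ∈ ratios G

/-- `G'` arises from `G` by a linear change of the parameters and multiplication with a constant,
both with entries in `K` -/
def Equ {n : ℕ} (K : Subfield ℂ) (G G' : Tuple n) : Prop :=
  ∃ (c : ℂ) (φ : Matrix (Fin (n + 1)) (Fin (n + 1)) ℂ), c ∈ K ∧ (∀ i j, φ i j ∈ K) ∧ c ≠ 0 ∧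
    φ.det ≠ 0 ∧ ∀ i, G' i = C c * subst φ (G i)

/-- `τ` is the identity on `K` -/
def Fixes (K : Subfield ℂ) (τ : ℂ ≃+* ℂ) : Prop := ∀ x ∈ K, τ x = x

/-- `τ` applied to all coefficients of `G` -/
noncomputable def conj {n : ℕ} (τ : ℂ ≃+* ℂ) (G : Tuple n) : Tuple n :=
  fun i => map (τ : ℂ →+* ℂ) (G i)

/-- the set `Q` is stable under the automorphisms of `ℂ` over `K` -/
def Stable {n : ℕ} (K : Subfield ℂ) (Q : Set (Tuple n)) : Prop :=
  ∀ τ : ℂ ≃+* ℂ, Fixes K τ → ∀ G ∈ Q, conj τ G ∈ Q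

/-- the tuples `r j` represent the classes of `Q`, up to constants and linear changes of the
parameters with entries algebraic over `K` -/
structure IsSystem {n : ℕ} (K : Subfield ℂ) (Q : Set (Tuple n)) (m : ℕ) (r : Fin m → Tuple n) :
    Prop where
  mem : ∀ j, r j ∈ Q
  inj : ∀ j j', Equ (Alg K) (r j) (r j') → j = j'
  surj : ∀ G ∈ Q, ∃ j, Equ (Alg K) (r j) G

/-- EXT.  Extend `σ` first to `Alg L` (`AlgEquiv.liftNormal` or `IsAlgClosure`), then with a
transcendence basis `B` of `ℂ` over `algebraicClosure L ℂ` (fixed by the extension) to `ℂ`, the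
algebraic closure of `Alg L (B)` (`IsAlgClosure.equivOfEquiv`, see `IsAlgClosed.equivOfTranscendenceBasis`). -/
def S_EXT : Prop := ∀ (L : Subfield ℂ) (N : IntermediateField L ℂ), Algebra.IsAlgebraic L N →
  ∀ σ : N ≃ₐ[L] N, ∃ τ : ℂ ≃+* ℂ, ∀ x : N, τ (x : ℂ) = (σ x : ℂ)

/-- FIX.  Galois theory in a finite normal extension of `L` inside `ℂ` containing `x`, with EXT. -/
def S_FIX : Prop := ∀ (L : Subfield ℂ) (x : ℂ), IsAlgebraic L x →
  (∀ τ : ℂ ≃+* ℂ, Fixes L τ → τ x = x) → x ∈ L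

/-- UNI.  The two substitutions give automorphisms `Φ`, `Φ'` of `Rat (n+1)` which agree at the
`G i / G j`, so on `ratios G`, so at `X i / X j`: `φ y` and `φ' y` are parallel for all `y`, hence
`φ⁻¹ φ'` is a scalar matrix. -/
def S_UNI : Prop := ∀ (n D : ℕ) (F : MvPolynomial (Fin (n + 2)) ℂ) (G : Tuple n), IsParam F D G →
  ∀ (c c' : ℂ) (φ φ' : Matrix (Fin (n + 1)) (Fin (n + 1)) ℂ), c ≠ 0 → c' ≠ 0 → φ.det ≠ 0 →
    φ'.det ≠ 0 → (∀ i, C c * subst φ (G i) = C c' * subst φ' (G i)) →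
      ∃ μ : ℂ, μ ≠ 0 ∧ φ' = μ • φ

/-- REP.  Normalise `φ` such that one entry is one (change `c` by a power, homogeneity); by UNI it is
fixed by every `τ` which fixes `L`, so by FIX the entries are in `L`; then `c` is a quotient of two
coefficients. -/
def S_REP : Prop := ∀ (n D : ℕ) (F : MvPolynomial (Fin (n + 2)) ℂ) (K L : Subfield ℂ)
  (G G' : Tuple n), K ≤ L → IsParam F D G → (∀ i, Over L (G i)) → (∀ i, Over L (G' i)) →
    Equ (Alg K) G G' → Equ L G G'

/-- H90.  (Speiser) For `v : Fin m → L` put `t v = ∑ σ, φ σ (s σ v)`; then `φ τ (s τ (t v)) = t v`,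
and the `t v` span `L^m` by the linear independence of the `s σ` (Dedekind): a functional `w` with
`w (t (x e)) = 0` for all scalars `x` gives `w (φ σ (s σ e)) = 0` for all `σ`.  Take a basis. -/
def S_H90 : Prop := ∀ (L : Type) [Field L] (P : Type) [Group P] [Finite P] (s : P → L →+* L),
  s 1 = RingHom.id L → (∀ σ τ, s (σ * τ) = (s σ).comp (s τ)) → Function.Injective s →
  ∀ (m : ℕ) (φ : P → Matrix (Fin m) (Fin m) L), (∀ σ, (φ σ).det ≠ 0) →
    (∀ σ τ, φ (σ * τ) = φ σ * (φ τ).map (s σ)) →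
    ∃ ψ : Matrix (Fin m) (Fin m) L, ψ.det ≠ 0 ∧ ∀ σ, φ σ * ψ.map (s σ) = ψ

/-- COC.  `φ (σ τ) = c(σ,τ) φ σ σ(φ τ)` makes `c` a 2-cocycle. With `e σ = ∏ ρ, c(σ,ρ)`:
`c(σ,τ)^|P| = e σ · σ(e τ) / e (σ τ)`; with `d = det φ`: `c(σ,τ)^m = d (σ τ) / (d σ · σ(d τ))`. As
`|P|` and `m` are coprime, `c(σ,τ) = b σ · σ(b τ) / b (σ τ)`, and `b σ • φ σ` satisfies H90. -/
def S_COC : Prop := ∀ (L : Type) [Field L] (P : Type) [Group P] [Finite P] (s : P → L →+* L),
  s 1 = RingHom.id L → (∀ σ τ, s (σ * τ) = (s σ).comp (s τ)) → Function.Injective s →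
  ∀ (m : ℕ) (φ : P → Matrix (Fin m) (Fin m) L), Nat.Coprime (Nat.card P) m →
    (∀ σ, (φ σ).det ≠ 0) →
    (∀ σ τ, ∃ c : L, c ≠ 0 ∧ φ (σ * τ) = c • (φ σ * (φ τ).map (s σ))) →
    ∃ ψ : Matrix (Fin m) (Fin m) L, ψ.det ≠ 0 ∧ ∀ σ, ∃ β : L, β ≠ 0 ∧
      φ σ * ψ.map (s σ) = β • ψ

/-- FP.  A Sylow subgroup and `IsPGroup.card_modEq_card_fixedPoints`. -/
def S_FP : Prop := ∀ (p m : ℕ) (Γ : Type) [Group Γ] [Finite Γ] (π : Γ → Fin m → Fin m), p.Prime →
  π 1 = id → (∀ σ τ, π (σ * τ) = π σ ∘ π τ) → ¬ p ∣ m →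
    ∃ P : Subgroup Γ, IsPGroup p P ∧ ¬ p ∣ P.index ∧ ∃ j, ∀ σ ∈ P, π σ j = j

/-- DEG.  The fixed field of `P`, as a subfield of `ℂ`. -/
def S_DEG : Prop := ∀ (K : Subfield ℂ) (L : IntermediateField K ℂ), FiniteDimensional K L →
  IsGalois K L → ∀ P : Subgroup (L ≃ₐ[K] L), ∃ K'' : Subfield ℂ, K ≤ K'' ∧
    K.relfinrank K'' = P.index ∧ ∀ x : L, (∀ σ ∈ P, σ x = x) → (x : ℂ) ∈ K''

/-- GAL.  The normal closure of `K(S)` in `ℂ`. -/
def S_GAL : Prop := ∀ (K : Subfield ℂ) (S : Set ℂ), S.Finite → (∀ x ∈ S, x ∈ Alg K) →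
  ∃ L : IntermediateField K ℂ, FiniteDimensional K L ∧ IsGalois K L ∧ ∀ x ∈ S, x ∈ L

/-- ST1.  `p ↦ C c * subst φ p` changes `aeval G H` for a form `H` of degree `e` by `c ^ e` and the
automorphism `subst φ`, which extends to `Rat (n + 1)`. -/
def S_ST1 : Prop := ∀ (n D : ℕ) (F : MvPolynomial (Fin (n + 2)) ℂ) (G : Tuple n),
  F.IsHomogeneous 3 → IsParam F D G → ∀ (c : ℂ) (φ : Matrix (Fin (n + 1)) (Fin (n + 1)) ℂ),
    c ≠ 0 → φ.det ≠ 0 → IsParam F D (fun i => C c * subst φ (G i))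

/-- ST2.  Transport with the ring automorphism `map τ`, which extends to `Rat (n + 1)`. -/
def S_ST2 : Prop := ∀ (n D : ℕ) (K : Subfield ℂ) (F : MvPolynomial (Fin (n + 2)) ℂ) (G : Tuple n),
  Over K F → IsParam F D G → ∀ τ : ℂ ≃+* ℂ, Fixes K τ → IsParam F D (conj τ G) ∧
    ((∀ i, Over (Alg K) (G i)) → ∀ i, Over (Alg K) (conj τ G i))

/-- ASM.  `L` Galois over `K` with all `r j` over `L`; `σ` in `Gal (L/K)` extends to `τ` and permutes
the classes: `π σ`; FP gives `P` and `j`; for `σ` in `P` REP gives `conj τ (r j) = c • (r j) ∘ φ σ` over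
`L`; UNI gives the relation of COC; for `ψ` of COC and `G = (r j) ∘ ψ`, `conj τ G` is a constant
multiple of `G`; divide by one coefficient; DEG. -/
def S_ASM : Prop := ∀ (p n D m : ℕ) (K : Subfield ℂ) (F : MvPolynomial (Fin (n + 2)) ℂ)
  (Q : Set (Tuple n)) (r : Fin m → Tuple n), p.Prime → ¬ p ∣ n + 1 → ¬ p ∣ m →
  F.IsHomogeneous 3 → (∀ G ∈ Q, IsParam F D G ∧ ∀ i, Over (Alg K) (G i)) → Stable K Q →
  IsSystem K Q m r → ∃ (K'' : Subfield ℂ) (G : Tuple n), K ≤ K'' ∧ ¬ p ∣ K.relfinrank K'' ∧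
    IsParam F D G ∧ ∀ i, Over K'' (G i)

/-- PER: the permutation part of ASM. -/
def S_PER : Prop := ∀ (n D m : ℕ) (K : Subfield ℂ) (F : MvPolynomial (Fin (n + 2)) ℂ)
  (Q : Set (Tuple n)) (r : Fin m → Tuple n) (L : IntermediateField K ℂ),
  (∀ G ∈ Q, IsParam F D G ∧ ∀ i, Over (Alg K) (G i)) → Stable K Q →
  IsSystem K Q m r → FiniteDimensional K L → IsGalois K L →
  (∀ j i, Over L.toSubfield (r j i)) → ∃ (E : (L ≃ₐ[K] L) → ℂ ≃+* ℂ)
    (π : (L ≃ₐ[K] L) → Fin m → Fin m), (∀ σ, Fixes K (E σ)) ∧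
    (∀ (σ : L ≃ₐ[K] L) (x : L), E σ (x : ℂ) = (σ x : ℂ)) ∧
    (∀ (σ : L ≃ₐ[K] L) (j : Fin m), Equ (Alg K) (r (π σ j)) (conj (E σ) (r j))) ∧
    π 1 = id ∧ ∀ σ τ, π (σ * τ) = π σ ∘ π τ

/-- DSC: the descent part of ASM: a tuple over `L` which is equivalent over `L` to its conjugates
under a group `P` of order prime to `n + 1` is equivalent over `L` to one over the fixed field. -/
def S_DSC : Prop := ∀ (n D : ℕ) (K : Subfield ℂ) (F : MvPolynomial (Fin (n + 2)) ℂ) (G : Tuple n)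
  (L : IntermediateField K ℂ) (E : (L ≃ₐ[K] L) → ℂ ≃+* ℂ) (P : Subgroup (L ≃ₐ[K] L)),
  F.IsHomogeneous 3 → IsParam F D G → FiniteDimensional K L → IsGalois K L →
  (∀ i, Over L.toSubfield (G i)) →
  (∀ (σ : L ≃ₐ[K] L) (x : L), E σ (x : ℂ) = (σ x : ℂ)) →
  Nat.Coprime (Nat.card P) (n + 1) →
  (∀ σ ∈ P, Equ L.toSubfield G (conj (E σ) G)) →
  ∃ G' : Tuple n, IsParam F D G' ∧ ∀ i α, ∃ x : L, (x : ℂ) = (G' i).coeff α ∧ ∀ σ ∈ P, σ x = x

/-- the field generated by the coefficients of `F` -/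
noncomputable def coefField {m : ℕ} (F : MvPolynomial (Fin m) ℂ) : Subfield ℂ :=
  Subfield.closure (Set.range fun α => F.coeff α)

/-- `F` is a cubic form with algebraically independent coefficients -/
def Generic {m : ℕ} (F : MvPolynomial (Fin m) ℂ) : Prop := F.IsHomogeneous 3 ∧
  AlgebraicIndependent ℚ (fun α : {α : Fin m →₀ ℕ // α.degree = 3} => F.coeff α.1)

/-- NO2.  `FieldOfDefinition` of the library with `k` generated by the coefficients besides those of
`x_0 x_i²`, and `s = 1`, `P = X 0`, `Q = 1` (then the degree is one). -/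
def S_NO2 : Prop := ∀ (n D : ℕ) (F : MvPolynomial (Fin (n + 2)) ℂ) (K'' : Subfield ℂ) (G : Tuple n),
  1 ≤ n → Generic F → coefField F ≤ K'' → ¬ 2 ∣ (coefField F).relfinrank K'' → IsParam F D G →
    ¬ ∀ i, Over K'' (G i)

/-- IX3.  A generic cubic form has no zeros over extensions of degree prime to three. -/
def S_IX3 : Prop := ∀ (m : ℕ) (F : MvPolynomial (Fin m) ℂ) (K'' : Subfield ℂ), Generic F →
  coefField F ≤ K'' → ¬ 3 ∣ (coefField F).relfinrank K'' → ∀ x : Fin m → ℂ, (∀ i, x i ∈ K'') →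
    eval x F = 0 → x = 0

/-- NO3.  From IX3: a value of `G` at a rational point. -/
def S_NO3 : Prop := ∀ (n D : ℕ) (F : MvPolynomial (Fin (n + 2)) ℂ) (K'' : Subfield ℂ) (G : Tuple n),
  Generic F → coefField F ≤ K'' → ¬ 3 ∣ (coefField F).relfinrank K'' → IsParam F D G →
    ¬ ∀ i, Over K'' (G i)

end Pool.Agent.Helper19.CP
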