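import Mathlib
import Pool.Agent.Helper19.CP.Spec

/-!
# CP: elementary properties of `subst`, `conj`, `Equ`
-/

set_option autoImplicit false

namespace Pool.Agent.Helper19.CP

open MvPolynomial

variable {m : ℕ}

/-- `subst φ` as an algebra homomorphism -/
noncomputable def substHom (φ : Matrix (Fin m) (Fin m) ℂ) :
    MvPolynomial (Fin m) ℂ →ₐ[ℂ] MvPolynomial (Fin m) ℂ :=
  aeval (fun j => ∑ l, C (φ j l) * X l)

lemma subst_eq (φ : Matrix (Fin m) (Fin m) ℂ) (p : MvPolynomial (Fin m) ℂ) :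
    subst φ p = substHom φ p := rfl

lemma substHom_X (φ : Matrix (Fin m) (Fin m) ℂ) (j : Fin m) :
    substHom φ (X j) = ∑ l, C (φ j l) * X l := by
  simp [substHom]

lemma substHom_C (φ : Matrix (Fin m) (Fin m) ℂ) (c : ℂ) :
    substHom φ (C c) = C c := by
  simp [substHom]

lemma subst_C_mul (φ : Matrix (Fin m) (Fin m) ℂ) (c : ℂ) (p : MvPolynomial (Fin m) ℂ) :
    subst φ (C c * p) = C c * subst φ p := by
  rw [subst_eq, map_mul, substHom_C, subst_eq]

/-- composition of substitutions -/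
lemma subst_subst (φ ψ : Matrix (Fin m) (Fin m) ℂ) (p : MvPolynomial (Fin m) ℂ) :
    subst φ (subst ψ p) = subst (ψ * φ) p := by
  have h : (substHom φ).comp (substHom ψ) = substHom (ψ * φ) := by
    apply MvPolynomial.algHom_ext
    intro j
    rw [AlgHom.comp_apply, substHom_X, substHom_X, map_sum]
    simp only [map_mul, substHom_C, substHom_X, Matrix.mul_apply, map_sum, Finset.mul_sum,
      Finset.sum_mul]
    rw [Finset.sum_comm]
    refine Finset.sum_congr rfl fun l _ => Finset.sum_congr rfl fun l' _ => ?_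
    ring
  rw [subst_eq, subst_eq, subst_eq, ← h]
  rfl

lemma subst_one (p : MvPolynomial (Fin m) ℂ) : subst 1 p = p := by
  have h : substHom (1 : Matrix (Fin m) (Fin m) ℂ) = AlgHom.id ℂ _ := by
    apply MvPolynomial.algHom_ext
    intro j
    rw [substHom_X, Finset.sum_eq_single j]
    · simp
    · intro l _ hl
      rw [Matrix.one_apply_ne (Ne.symm hl)]
      simp
    · intro h; exact absurd (Finset.mem_univ _) h
  rw [subst_eq, h]
  rfl

lemma eval_subst (φ : Matrix (Fin m) (Fin m) ℂ) (y : Fin m → ℂ) (p : MvPolynomial (Fin m) ℂ) :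
    eval y (subst φ p) = eval (φ.mulVec y) p := by
  have h : (aeval y : MvPolynomial (Fin m) ℂ →ₐ[ℂ] ℂ).comp (substHom φ) =
      aeval (φ.mulVec y) := by
    apply MvPolynomial.algHom_ext
    intro j
    rw [AlgHom.comp_apply, substHom_X, map_sum]
    simp [Matrix.mulVec, dotProduct]
  have h2 := DFunLike.congr_fun h p
  rw [AlgHom.comp_apply] at h2
  rw [subst_eq]
  simpa [MvPolynomial.aeval_eq_eval] using h2

lemma subst_homogeneous {D : ℕ} (φ : Matrix (Fin m) (Fin m) ℂ) {p : MvPolynomial (Fin m) ℂ}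
    (hp : p.IsHomogeneous D) : (subst φ p).IsHomogeneous D := by
  have h := hp.aeval (fun j => ∑ l, C (φ j l) * X l) (n := 1) (fun j =>
    IsHomogeneous.sum _ _ _ fun l _ => by
      simpa using (isHomogeneous_C (Fin m) (φ j l)).mul (isHomogeneous_X ℂ l))
  simpa [subst] using h

/-- homogeneity -/
lemma aeval_mul_hom {A : Type} [CommRing A] [Algebra ℂ A] {e m' : ℕ}
    {H : MvPolynomial (Fin m') ℂ} (hH : H.IsHomogeneous e) (a : A) (g : Fin m' → A) :
    aeval (fun i => a * g i) H = a ^ e * aeval g H := by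
  rw [aeval_def, aeval_def, eval₂_eq', eval₂_eq', Finset.mul_sum]
  refine Finset.sum_congr rfl fun d hd => ?_
  have h : ∑ i, d i = e := by
    have h1 := hH (mem_support_iff.1 hd)
    rw [← h1, Finsupp.weight_apply, Finsupp.sum_fintype _ _ (by simp)]
    simp
  simp only [mul_pow, Finset.prod_mul_distrib]
  rw [Finset.prod_pow_eq_pow_sum, h]
  ring

/-- scaling of the parameters -/
lemma subst_smul {D : ℕ} (μ : ℂ) (φ : Matrix (Fin m) (Fin m) ℂ) {p : MvPolynomial (Fin m) ℂ}
    (hp : p.IsHomogeneous D) : subst (μ • φ) p = C (μ ^ D) * subst φ p := by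
  unfold subst
  have h : (fun j => ∑ l, C ((μ • φ) j l) * X l : Fin m → MvPolynomial (Fin m) ℂ) =
      fun j => C μ * ∑ l, C (φ j l) * X l := by
    funext j
    rw [Finset.mul_sum]
    refine Finset.sum_congr rfl fun l _ => ?_
    rw [Matrix.smul_apply, smul_eq_mul, map_mul, mul_assoc]
  rw [h, aeval_mul_hom hp, map_pow]

lemma subst_injective {φ : Matrix (Fin m) (Fin m) ℂ} (hφ : φ.det ≠ 0) :
    Function.Injective (subst φ) := by
  intro p q h
  have hu : IsUnit φ.det := isUnit_iff_ne_zero.2 hφ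
  have h1 : subst φ⁻¹ (subst φ p) = subst φ⁻¹ (subst φ q) := by rw [h]
  rw [subst_subst, subst_subst, Matrix.mul_nonsing_inv _ hu, subst_one, subst_one] at h1
  exact h1

/-- conjugation of a substitution -/
lemma map_subst (τ : ℂ →+* ℂ) (φ : Matrix (Fin m) (Fin m) ℂ) (p : MvPolynomial (Fin m) ℂ) :
    map τ (subst φ p) = subst (φ.map τ) (map τ p) := by
  induction p using MvPolynomial.induction_on with
  | C a => rw [subst_eq, subst_eq, substHom_C, map_C, substHom_C]
  | add p q hp hq =>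
    rw [subst_eq, subst_eq] at *
    rw [map_add, map_add, hp, hq, map_add, map_add]
  | mul_X p i hp =>
    rw [subst_eq, subst_eq] at *
    rw [map_mul, map_mul, hp, map_mul, map_mul, map_X, substHom_X, substHom_X, map_sum]
    congr 1
    refine Finset.sum_congr rfl fun l _ => ?_
    rw [map_mul, map_C, map_X]
    rfl

/-- `aeval` of a homogeneous form at `C c * subst φ (G i)` -/
lemma aeval_subst {e m' : ℕ} (φ : Matrix (Fin m) (Fin m) ℂ) (c : ℂ)
    (G : Fin m' → MvPolynomial (Fin m) ℂ) {H : MvPolynomial (Fin m') ℂ}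
    (hH : H.IsHomogeneous e) :
    aeval (fun i => C c * subst φ (G i)) H = C (c ^ e) * subst φ (aeval G H) := by
  rw [aeval_mul_hom hH, map_pow]
  congr 1
  have h := MvPolynomial.comp_aeval_apply (substHom φ) (f := G) H
  rw [subst_eq, h]
  rfl

/-- `map τ` commutes with `aeval` -/
lemma map_aeval_tuple {m' : ℕ} (τ : ℂ →+* ℂ) (G : Fin m' → MvPolynomial (Fin m) ℂ)
    (H : MvPolynomial (Fin m') ℂ) :
    map τ (aeval G H) = aeval (fun i => map τ (G i)) (map τ H) := by
  induction H using MvPolynomial.induction_on with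
  | C a => simp
  | add p q hp hq => simp only [map_add, hp, hq]
  | mul_X p i hp => simp only [map_mul, hp, aeval_X, map_X]

/-- a polynomial over `K` is fixed by `map τ` if `τ` fixes `K` -/
lemma map_of_over {K : Subfield ℂ} {τ : ℂ ≃+* ℂ} (hτ : Fixes K τ) {p : MvPolynomial (Fin m) ℂ}
    (hp : Over K p) : map (τ : ℂ →+* ℂ) p = p := by
  ext α
  rw [coeff_map]
  exact hτ _ (hp α)

/-- `Over` for products, sums and substitutions -/
lemma Over.C_mul {K : Subfield ℂ} {c : ℂ} (hc : c ∈ K) {p : MvPolynomial (Fin m) ℂ}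
    (hp : Over K p) : Over K (C c * p) := fun α => by
  rw [coeff_C_mul]; exact K.mul_mem hc (hp α)

lemma over_iff_exists {K : Subfield ℂ} {p : MvPolynomial (Fin m) ℂ} :
    Over K p ↔ ∃ q : MvPolynomial (Fin m) K, map K.subtype q = p := by
  constructor
  · intro h
    have h1 : p ∈ Set.range (MvPolynomial.map (σ := Fin m) K.subtype) := by
      rw [MvPolynomial.mem_range_map_iff_coeffs_subset]
      intro x hx
      obtain ⟨α, -, rfl⟩ := MvPolynomial.mem_coeffs_iff.1 hx
      exact ⟨⟨_, h α⟩, rfl⟩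
    exact h1
  · rintro ⟨q, rfl⟩ α
    rw [coeff_map]
    exact (q.coeff α).2

lemma Over.subst {K : Subfield ℂ} {φ : Matrix (Fin m) (Fin m) ℂ} (hφ : ∀ i j, φ i j ∈ K)
    {p : MvPolynomial (Fin m) ℂ} (hp : Over K p) : Over K (subst φ p) := by
  obtain ⟨q, rfl⟩ := over_iff_exists.1 hp
  refine over_iff_exists.2 ⟨aeval (fun j => ∑ l, C (⟨φ j l, hφ j l⟩ : K) * X l) q, ?_⟩
  clear hp
  induction q using MvPolynomial.induction_on with
  | C a => simp [CP.subst]
  | add p q hp hq =>
    rw [subst_eq] at hp hq ⊢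
    simp only [map_add, hp, hq]
  | mul_X p i hp =>
    rw [subst_eq] at hp ⊢
    simp only [map_mul, hp, aeval_X, map_X, substHom_X, map_sum, map_C]
    rfl

end Pool.Agent.Helper19.CP
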