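import Mathlib
import Pool.Agent.Helper19.CP.Base

/-!
# CP: the final statement from the parts
-/

set_option autoImplicit false

namespace Pool.Agent.Helper19.CP

open MvPolynomial

/-- all birational parametrizations by forms of degree `D` with coefficients algebraic over `K` -/
def AllParams {n : ℕ} (F : MvPolynomial (Fin (n + 2)) ℂ) (D : ℕ) : Set (Tuple n) :=
  {G | IsParam F D G ∧ ∀ i, Over (Alg (coefField F)) (G i)}

lemma over_coefField {m : ℕ} (F : MvPolynomial (Fin m) ℂ) : Over (coefField F) F := fun α =>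
  Subfield.subset_closure ⟨α, rfl⟩

theorem allParams_stable (h : S_ST2) {n : ℕ} (F : MvPolynomial (Fin (n + 2)) ℂ) (D : ℕ) :
    Stable (coefField F) (AllParams F D) := by
  intro τ hτ G hG
  obtain ⟨h1, h2⟩ := h n D (coefField F) F G (over_coefField F) hG.1 τ hτ
  exact ⟨h1, h2 hG.2⟩

theorem fin (h1 : S_ASM) (h2 : S_NO2) (h3 : S_NO3) (n D m : ℕ) (hn : 1 ≤ n)
    (F : MvPolynomial (Fin (n + 2)) ℂ) (hF : Generic F) (Q : Set (Tuple n))
    (hQ : ∀ G ∈ Q, IsParam F D G ∧ ∀ i, Over (Alg (coefField F)) (G i))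
    (hst : Stable (coefField F) Q) (r : Fin m → Tuple n) (hr : IsSystem (coefField F) Q m r) :
    (Even n → 2 ∣ m) ∧ (¬ 3 ∣ n + 1 → 3 ∣ m) := by
  constructor
  · intro hev
    by_contra hm
    obtain ⟨K'', G, hK, hdeg, hG, hov⟩ := h1 2 n D m (coefField F) F Q r Nat.prime_two
      (by obtain ⟨k, hk⟩ := hev; omega) hm hF.1 hQ hst hr
    exact h2 n D F K'' G hn hF hK hdeg hG hov
  · intro h3n
    by_contra hm
    obtain ⟨K'', G, hK, hdeg, hG, hov⟩ := h1 3 n D m (coefField F) F Q r Nat.prime_three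
      h3n hm hF.1 hQ hst hr
    exact h3 n D F K'' G hF hK hdeg hG hov

end Pool.Agent.Helper19.CP
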