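import Mathlib
import Pool.Agent.Helper19.CP.Fin
import Pool.Agent.Helper56.CP.GAL
import Pool.Agent.Helper6.CP.PER
import Pool.Agent.Helper2.CP.EXT

/-!
# CP: the conjugates of a parametrization form finitely many classes
-/

set_option autoImplicit false

namespace Pool.Agent.Helper19.CP

open MvPolynomial

/-- the conjugates of `G` over `K` -/
def Conjs {n : ℕ} (K : Subfield ℂ) (G : Tuple n) : Set (Tuple n) :=
  {G' | ∃ τ : ℂ ≃+* ℂ, Fixes K τ ∧ G' = conj τ G}

lemma conjs_finite {n : ℕ} {K : Subfield ℂ} {G : Tuple n} (hG : ∀ i, Over (Alg K) (G i)) :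
    (Conjs K G).Finite := by
  classical
  set S : Set ℂ := ⋃ i, (fun α => (G i).coeff α) '' ((G i).support : Set (Fin (n + 1) →₀ ℕ))
    with hS
  have hSf : S.Finite := Set.finite_iUnion fun i => (Finset.finite_toSet _).image _
  obtain ⟨L, hfd, hgal, hL⟩ := Helper56.CP.GAL.main K S hSf (by
    intro x hx
    obtain ⟨i, α, -, rfl⟩ := Set.mem_iUnion.1 hx
    exact hG i α)
  have hover : ∀ i α, (G i).coeff α ∈ L := by
    intro i α
    by_cases h : α ∈ (G i).support
    · exact hL _ (Set.mem_iUnion.2 ⟨i, α, h, rfl⟩)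
    · rw [MvPolynomial.notMem_support_iff.1 h]
      exact zero_mem _
  choose E hE using fun σ : L ≃ₐ[K] L => Helper2.CP.EXT.main K L inferInstance σ
  haveI : Finite (L ≃ₐ[K] L) := inferInstance
  refine (Set.finite_range (fun σ : L ≃ₐ[K] L => conj (E σ) G)).subset ?_
  rintro _ ⟨τ, hτ, rfl⟩
  let τ' : ℂ ≃ₐ[K] ℂ := AlgEquiv.ofRingEquiv (f := τ) (fun x => hτ x.1 x.2)
  haveI : Normal K L := hgal.to_normal
  refine ⟨τ'.restrictNormal L, ?_⟩
  funext i
  ext α
  have h1 := hE (τ'.restrictNormal L) ⟨(G i).coeff α, hover i α⟩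
  have h2 := AlgEquiv.restrictNormal_commutes τ' L ⟨(G i).coeff α, hover i α⟩
  simp only [conj, coeff_map]
  change E (τ'.restrictNormal L) ((G i).coeff α) = τ ((G i).coeff α)
  refine h1.trans ?_
  exact h2

lemma conjs_stable {n : ℕ} (K : Subfield ℂ) (G : Tuple n) : Stable K (Conjs K G) := by
  rintro τ hτ _ ⟨τ', hτ', rfl⟩
  refine ⟨τ'.trans τ, fun x hx => ?_, ?_⟩
  · change τ (τ' x) = x
    rw [hτ' x hx, hτ x hx]
  · funext i
    ext α
    simp only [conj, coeff_map]
    rfl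

lemma equ_refl {n : ℕ} (K : Subfield ℂ) (G : Tuple n) : Equ K G G := by
  refine ⟨1, 1, K.one_mem, fun i j => ?_, one_ne_zero, ?_, fun i => ?_⟩
  · rw [Matrix.one_apply]
    split_ifs
    · exact K.one_mem
    · exact K.zero_mem
  · rw [Matrix.det_one]; exact one_ne_zero
  · rw [subst_one, C_1, one_mul]

lemma exists_system {n : ℕ} (K : Subfield ℂ) {Q : Set (Tuple n)} (hQ : Q.Finite) :
    ∃ (m : ℕ) (r : Fin m → Tuple n), IsSystem K Q m r := by
  classical
  let s : Setoid Q := ⟨fun G G' => Equ (Alg K) G.1 G'.1, fun G => equ_refl _ _,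
    fun h => Helper6.CP.PER.equ_symm h, fun h h' => Helper6.CP.PER.equ_trans h h'⟩
  haveI : Finite Q := hQ
  haveI : Finite (Quotient s) := inferInstance
  let e : Quotient s ≃ Fin (Nat.card (Quotient s)) := Finite.equivFin _
  refine ⟨Nat.card (Quotient s), fun j => ((e.symm j).out).1, ?_, ?_, ?_⟩
  · intro j; exact ((e.symm j).out).2
  · intro j j' h
    have h1 : (⟦(e.symm j).out⟧ : Quotient s) = ⟦(e.symm j').out⟧ := Quotient.sound h
    rw [Quotient.out_eq, Quotient.out_eq] at h1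
    exact e.symm.injective h1
  · intro G hG
    refine ⟨e ⟦⟨G, hG⟩⟧, ?_⟩
    have h1 : (⟦(e.symm (e ⟦⟨G, hG⟩⟧)).out⟧ : Quotient s) = ⟦⟨G, hG⟩⟧ := by
      rw [Quotient.out_eq, Equiv.symm_apply_apply]
    exact Quotient.exact h1

end Pool.Agent.Helper19.CP
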