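import Mathlib
import Pool.Agent.Helper19.CP.Fin
import Pool.Agent.Helper19.CP.Orb
import Pool.Agent.Helper94.CP.ASM
import Pool.Agent.Helper81.CP.COC
import Pool.Agent.Helper76.CP.DEG
import Pool.Agent.Helper2.CP.EXT
import Pool.Agent.Helper82.CP.FIX
import Pool.Agent.Helper60.CP.FP
import Pool.Agent.Helper56.CP.GAL
import Pool.Agent.Helper50.CP.H90
import Pool.Agent.Helper4.CP.NO3
import Pool.Agent.Helper67.CP.REP
import Pool.Agent.Helper22.CP.ST1
import Pool.Agent.Helper56.CP.ST2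
import Pool.Agent.Helper22.CP.UNI
import Pool.Agent.Helper49.CP.DSC
import Pool.Agent.Helper6.CP.PER
import Pool.Agent.Helper50.CP.NO2
import Pool.Agent.Helper71.CP2.IX3

/-!
# CP: all parts together
-/

set_option autoImplicit false

namespace Pool.Agent.Helper19.CP

open MvPolynomial

theorem uni : S_UNI := Helper22.CP.UNI.main

theorem asm : S_ASM :=
  Helper94.CP.ASM.main Helper56.CP.GAL.main (Helper6.CP.PER.main Helper2.CP.EXT.main)
    Helper60.CP.FP.main (Helper67.CP.REP.main (Helper82.CP.FIX.main Helper2.CP.EXT.main) uni)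
    (Helper49.CP.DSC.main (Helper81.CP.COC.main Helper50.CP.H90.main) uni Helper22.CP.ST1.main)
    Helper76.CP.DEG.main

theorem allParams_stable_all {n : ℕ} (F : MvPolynomial (Fin (n + 2)) ℂ) (D : ℕ) :
    Stable (coefField F) (AllParams F D) := allParams_stable Helper56.CP.ST2.main F D

theorem fin_all (n D m : ℕ) (hn : 1 ≤ n)
    (F : MvPolynomial (Fin (n + 2)) ℂ) (hF : Generic F) (Q : Set (Tuple n))
    (hQ : ∀ G ∈ Q, IsParam F D G ∧ ∀ i, Over (Alg (coefField F)) (G i))
    (hst : Stable (coefField F) Q) (r : Fin m → Tuple n) (hr : IsSystem (coefField F) Q m r) :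
    (Even n → 2 ∣ m) ∧ (¬ 3 ∣ n + 1 → 3 ∣ m) :=
  fin asm Helper50.CP.NO2.main (Helper4.CP.NO3.main Helper71.CP.IX3.main) n D m hn F hF Q hQ hst r hr

end Pool.Agent.Helper19.CP
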